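import Mathlib

/-!
# Periodic billiard orbits in the regular tetrahedron have an even number of bounces
-/

set_option autoImplicit false

namespace Pool.Agent.Results.MP_aceab8_an.EvenBounces

/-- Euclidean three-space. -/
abbrev E3 := EuclideanSpace ℝ (Fin 3)

/-- The closed face opposite to the vertex `p i`. -/
def face (p : Fin 4 → E3) (i : Fin 4) : Set E3 := convexHull ℝ (p '' {j | j ≠ i})

/-- A billiard trajectory in the solid tetrahedron with vertices `p`: it starts at the point `q 0` of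
the tetrahedron with velocity `v 0`; for `k ≥ 1`, `q k` is the point of the `k`-th bounce, which lies
in the relative interior of the face `f k`, and `v k` is the velocity after the `k`-th bounce. -/
structure IsTrajectory (p : Fin 4 → E3) (q v : ℕ → E3) (f : ℕ → Fin 4) : Prop where
  start : q 0 ∈ convexHull ℝ (Set.range p)
  speed : ∀ k, ‖v k‖ = 1
  move : ∀ k, ∃ t : ℝ, 0 < t ∧ q (k + 1) = q k + t • v k
  inside : ∀ k, openSegment ℝ (q k) (q (k + 1)) ⊆ interior (convexHull ℝ (Set.range p))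
  bounce : ∀ k, q (k + 1) ∈ intrinsicInterior ℝ (face p (f (k + 1)))
  reflect : ∀ k, ∃ n : E3, ‖n‖ = 1 ∧
    (∀ x ∈ face p (f (k + 1)), ∀ y ∈ face p (f (k + 1)), inner ℝ n (x - y) = 0) ∧
    v (k + 1) = v k - (2 * inner ℝ (v k) n) • n

/-- After `n` bounces, and before the next one, the trajectory is again at its initial point with
its initial velocity. -/
def ReturnsAfter (q v : ℕ → E3) (n : ℕ) : Prop :=
  q 0 ∈ segment ℝ (q n) (q (n + 1)) ∧ v n = v 0

/-- The trajectory is periodic and `n` is its number of bounces. -/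
def HasBounces (q v : ℕ → E3) (n : ℕ) : Prop :=
  1 ≤ n ∧ ReturnsAfter q v n ∧ ∀ m, 1 ≤ m → m < n → ¬ ReturnsAfter q v m

/-! ### The integer matrices -/

/-- The vertices of a model tetrahedron. -/
def ep : Fin 4 → Fin 3 → ℤ := ![![1, 1, 1], ![1, -1, -1], ![-1, 1, -1], ![-1, -1, 1]]

/-- Three times the reflection. -/
def A (i : Fin 4) : Matrix (Fin 3) (Fin 3) ℤ := (3 : ℤ) • 1 - (2 : ℤ) • Matrix.vecMulVec (ep i) (ep i)

lemma ep_dot (i j : Fin 4) : ep i ⬝ᵥ ep j = if i = j then 3 else -1 := by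
  revert i j; decide

lemma A_orth (i : Fin 4) : (A i).transpose * A i = (9 : ℤ) • 1 := by
  revert i; decide

lemma A_det (i : Fin 4) : (A i).det = -27 := by
  rw [Matrix.det_fin_three]
  revert i; decide

/-- The products along a word. -/
def Pr (f : ℕ → Fin 4) : ℕ → Matrix (Fin 3) (Fin 3) ℤ
  | 0 => 1
  | n + 1 => A (f (n + 1)) * Pr f n

lemma Pr_orth (f : ℕ → Fin 4) (n : ℕ) :
    (Pr f n).transpose * Pr f n = ((9 : ℤ) ^ n) • 1 := by
  induction n with
  | zero => simp [Pr]
  | succ n ih =>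
    rw [Pr, Matrix.transpose_mul, Matrix.mul_assoc, ← Matrix.mul_assoc (A _).transpose, A_orth,
      Matrix.smul_mul, Matrix.one_mul, Matrix.mul_smul, ih, smul_smul, pow_succ']

lemma Pr_det (f : ℕ → Fin 4) (n : ℕ) : (Pr f n).det = (-27) ^ n := by
  induction n with
  | zero => simp [Pr]
  | succ n ih => rw [Pr, Matrix.det_mul, A_det, ih, pow_succ']

lemma Pr_mod (f : ℕ → Fin 4) (hf : ∀ n, 1 ≤ n → f (n + 1) ≠ f n) (n : ℕ) :
    ∃ B : Matrix (Fin 3) (Fin 3) ℤ,
      Pr f (n + 1) = ((-1 : ℤ) ^ n) • Matrix.vecMulVec (ep (f (n + 1))) (ep (f 1)) + (3 : ℤ) • B := by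
  induction n with
  | zero =>
    refine ⟨1 - Matrix.vecMulVec (ep (f 1)) (ep (f 1)), ?_⟩
    simp only [Pr, A, Matrix.mul_one, pow_zero, one_smul, zero_add]
    rw [smul_sub]
    ext a b
    simp only [Matrix.sub_apply, Matrix.add_apply, Matrix.smul_apply, smul_eq_mul]
    ring
  | succ n ih =>
    obtain ⟨B, hB⟩ := ih
    set g := f (n + 1 + 1) with hg
    set e := f (n + 1) with he
    have hne : g ≠ e := hf (n + 1) (by omega)
    have h1 : Matrix.vecMulVec (ep g) (ep g) * Matrix.vecMulVec (ep e) (ep (f 1)) =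
        (-1 : ℤ) • Matrix.vecMulVec (ep g) (ep (f 1)) := by
      rw [Matrix.vecMulVec_mul_vecMulVec, ep_dot, if_neg hne]
      ext a b
      simp [Matrix.vecMulVec_apply]
    refine ⟨A g * B + ((-1 : ℤ) ^ n) • (Matrix.vecMulVec (ep e) (ep (f 1)) +
      Matrix.vecMulVec (ep g) (ep (f 1))), ?_⟩
    have h2 : Pr f (n + 1 + 1) = A g * Pr f (n + 1) := rfl
    rw [h2, hB, Matrix.mul_add, Matrix.mul_smul, Matrix.mul_smul]
    have h3 : A g * Matrix.vecMulVec (ep e) (ep (f 1)) =
        (3 : ℤ) • Matrix.vecMulVec (ep e) (ep (f 1)) +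
          (2 : ℤ) • Matrix.vecMulVec (ep g) (ep (f 1)) := by
      rw [A, Matrix.sub_mul, Matrix.smul_mul, Matrix.smul_mul, Matrix.one_mul, h1]
      ext a b
      simp only [Matrix.sub_apply, Matrix.add_apply, Matrix.smul_apply, smul_eq_mul]
      ring
    rw [h3]
    ext a b
    simp only [Matrix.add_apply, Matrix.smul_apply, smul_eq_mul, pow_succ]
    ring

lemma det_sub (P : Matrix (Fin 3) (Fin 3) ℤ) (c : ℤ) :
    (c • 1 - P).det = c ^ 3 - c ^ 2 * P.trace + c * P.adjugate.trace - P.det := by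
  simp only [Matrix.det_fin_three, Matrix.trace_fin_three, Matrix.adjugate_fin_three,
    Matrix.sub_apply, Matrix.smul_apply, smul_eq_mul, Matrix.one_apply, Matrix.of_apply,
    Matrix.cons_val', Matrix.cons_val_zero, Matrix.cons_val_one, Matrix.cons_val_two]
  simp
  ring

/-- The trace of a product of odd length which fixes a vector. -/
lemma trace_eq (f : ℕ → Fin 4) (n : ℕ) (hn : Odd n) (z : Fin 3 → ℝ) (hz : z ≠ 0)
    (h : ((Pr f n).map (Int.cast : ℤ → ℝ)).mulVec z = (3 : ℝ) ^ n • z) :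
    (Pr f n).trace = 3 ^ n := by
  set P := Pr f n with hP
  have h1 : (((3 : ℤ) ^ n) • (1 : Matrix (Fin 3) (Fin 3) ℤ) - P).det = 0 := by
    have h2 : ((((3 : ℤ) ^ n) • (1 : Matrix (Fin 3) (Fin 3) ℤ) - P).map
        (Int.cast : ℤ → ℝ)).det = 0 := by
      refine Matrix.exists_mulVec_eq_zero_iff.1 ⟨z, hz, ?_⟩
      have h3 : (((3 : ℤ) ^ n) • (1 : Matrix (Fin 3) (Fin 3) ℤ) - P).map (Int.cast : ℤ → ℝ) =
          ((3 : ℝ) ^ n) • (1 : Matrix (Fin 3) (Fin 3) ℝ) - P.map (Int.cast : ℤ → ℝ) := by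
        ext a b
        simp only [Matrix.map_apply, Matrix.sub_apply, Matrix.smul_apply, Matrix.one_apply,
          smul_eq_mul]
        split_ifs <;> push_cast <;> ring
      rw [h3, Matrix.sub_mulVec, Matrix.smul_mulVec, Matrix.one_mulVec, h, sub_self]
    have h4 : ((((3 : ℤ) ^ n) • (1 : Matrix (Fin 3) (Fin 3) ℤ) - P).map
        (Int.cast : ℤ → ℝ)).det = (((((3 : ℤ) ^ n) • (1 : Matrix (Fin 3) (Fin 3) ℤ) - P).det : ℤ) : ℝ) :=
      (RingHom.map_det (Int.castRingHom ℝ) _).symm
    rw [h4] at h2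
    exact_mod_cast h2
  rw [det_sub, Pr_det, hn.neg_pow] at h1
  have h5 : ((9 : ℤ) ^ n) * P.adjugate.trace = P.det * P.trace := by
    have h6 : P.adjugate * (P * P.transpose) = P.det • P.transpose := by
      rw [← Matrix.mul_assoc, Matrix.adjugate_mul, Matrix.smul_mul, Matrix.one_mul]
    have h7 : P * P.transpose = ((9 : ℤ) ^ n) • 1 := by
      have h8 := Pr_orth f n
      rw [← hP] at h8
      have h9 : P * (P.transpose * P) * P.transpose = P * P.transpose * (P * P.transpose) := by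
        simp only [Matrix.mul_assoc]
      have hdet : P.det ≠ 0 := by
        rw [hP, Pr_det]
        exact pow_ne_zero _ (by norm_num)
      have h10 : P * (P.transpose * P) = ((9 : ℤ) ^ n) • P := by
        rw [h8, Matrix.mul_smul, Matrix.mul_one]
      have h11 : (P * P.transpose - ((9 : ℤ) ^ n) • 1) * P = 0 := by
        rw [Matrix.sub_mul, Matrix.mul_assoc, h10, Matrix.smul_mul, Matrix.one_mul, sub_self]
      have h12 : (P * P.transpose - ((9 : ℤ) ^ n) • 1) * (P * P.adjugate) = 0 := by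
        rw [← Matrix.mul_assoc, h11, Matrix.zero_mul]
      rw [Matrix.mul_adjugate, Matrix.mul_smul, Matrix.mul_one] at h12
      have h13 := (smul_eq_zero.1 h12).resolve_left hdet
      exact sub_eq_zero.1 h13
    have h14 := congrArg Matrix.trace h6
    rw [h7, Matrix.mul_smul, Matrix.mul_one, Matrix.trace_smul, Matrix.trace_smul,
      Matrix.trace_transpose, smul_eq_mul, smul_eq_mul] at h14
    exact h14
  rw [hP, Pr_det, hn.neg_pow, ← hP] at h5
  have e1 : (27 : ℤ) ^ n = 3 ^ n * 9 ^ n := by rw [← mul_pow]; norm_num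
  have e2 : (9 : ℤ) ^ n = 3 ^ n * 3 ^ n := by rw [← mul_pow]; norm_num
  have p3 : (0 : ℤ) < 3 ^ n := by positivity
  have h15 : P.adjugate.trace = - (3 ^ n * P.trace) := by
    have : (9 : ℤ) ^ n * P.adjugate.trace = (9 : ℤ) ^ n * (- (3 ^ n * P.trace)) := by
      rw [h5, e1]; ring
    exact mul_left_cancel₀ (by positivity) this
  rw [h15, e1, e2] at h1
  have h16 : (3 : ℤ) ^ n * (3 ^ n * (2 * (3 ^ n - P.trace))) = 0 := by
    rw [← h1]; ring
  have h17 := (mul_eq_zero.1 h16).resolve_left p3.ne'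
  have h18 := (mul_eq_zero.1 h17).resolve_left p3.ne'
  omega

/-- The combinatorial core. -/
lemma core (f : ℕ → Fin 4) (hf : ∀ n, 1 ≤ n → f (n + 1) ≠ f n) (n : ℕ) (hn : 1 ≤ n)
    (hcyc : f n ≠ f 1) (z : Fin 3 → ℝ) (hz : z ≠ 0)
    (h : ((Pr f n).map (Int.cast : ℤ → ℝ)).mulVec z = (3 : ℝ) ^ n • z) : Even n := by
  by_contra hodd
  rw [Nat.not_even_iff_odd] at hodd
  have h1 := trace_eq f n hodd z hz h
  obtain ⟨m, rfl⟩ := Nat.exists_eq_add_of_le' hn
  obtain ⟨B, hB⟩ := Pr_mod f hf m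
  rw [hB, Matrix.trace_add, Matrix.trace_smul, Matrix.trace_smul, Matrix.trace_vecMulVec,
    ep_dot, if_neg hcyc, smul_eq_mul, smul_eq_mul] at h1
  have h2 : (-1 : ℤ) ^ m = 1 := by
    have : Even m := by
      rcases Nat.even_or_odd m with hm | hm
      · exact hm
      · exact absurd hodd (Nat.not_odd_iff_even.2 hm.add_one)
    exact this.neg_one_pow
  rw [h2, pow_succ] at h1
  omega

/-! ### Geometry of the regular tetrahedron -/

section geom

variable {p : Fin 4 → E3} {l : ℝ}

/-- The vertex vectors relative to the centroid. -/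
noncomputable def u (p : Fin 4 → E3) (i : Fin 4) : E3 := p i - (1 / 4 : ℝ) • ∑ j, p j

lemma sum_u (p : Fin 4 → E3) : ∑ i, u p i = 0 := by
  simp only [u, Finset.sum_sub_distrib, Finset.sum_const, Finset.card_univ, Fintype.card_fin]
  rw [← Nat.cast_smul_eq_nsmul ℝ, smul_smul]
  norm_num

lemma u_sub (p : Fin 4 → E3) (i j : Fin 4) : u p i - u p j = p i - p j := by
  simp [u]

lemma inner_u (hp : ∀ i j, i ≠ j → dist (p i) (p j) = l) (i j : Fin 4) :
    inner ℝ (u p i) (u p j) = if i = j then 3 * (l ^ 2 / 8) else - (l ^ 2 / 8) := by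
  have hd : ∀ i j, i ≠ j → ‖u p i‖ ^ 2 - 2 * inner ℝ (u p i) (u p j) + ‖u p j‖ ^ 2 = l ^ 2 := by
    intro i j hij
    rw [← norm_sub_sq_real, u_sub, ← dist_eq_norm, hp i j hij]
  have hs : ∀ i, ∑ j, inner ℝ (u p i) (u p j) = 0 := by
    intro i
    rw [← inner_sum, sum_u, inner_zero_right]
  have hss : ∀ i, inner ℝ (u p i) (u p i) = ‖u p i‖ ^ 2 := fun i => real_inner_self_eq_norm_sq _
  have s0 := hs 0
  have s1 := hs 1
  have s2 := hs 2
  have s3 := hs 3
  simp only [Fin.sum_univ_four, hss] at s0 s1 s2 s3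
  have c10 := real_inner_comm (u p 0) (u p 1)
  have c20 := real_inner_comm (u p 0) (u p 2)
  have c30 := real_inner_comm (u p 0) (u p 3)
  have c21 := real_inner_comm (u p 1) (u p 2)
  have c31 := real_inner_comm (u p 1) (u p 3)
  have c32 := real_inner_comm (u p 2) (u p 3)
  have d01 := hd 0 1 (by decide)
  have d02 := hd 0 2 (by decide)
  have d03 := hd 0 3 (by decide)
  have d12 := hd 1 2 (by decide)
  have d13 := hd 1 3 (by decide)
  have d23 := hd 2 3 (by decide)
  have n0 : ‖u p 0‖ ^ 2 = 3 * (l ^ 2 / 8) := by linarith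
  have n1 : ‖u p 1‖ ^ 2 = 3 * (l ^ 2 / 8) := by linarith
  have n2 : ‖u p 2‖ ^ 2 = 3 * (l ^ 2 / 8) := by linarith
  have n3 : ‖u p 3‖ ^ 2 = 3 * (l ^ 2 / 8) := by linarith
  have hn : ∀ i, ‖u p i‖ ^ 2 = 3 * (l ^ 2 / 8) := by
    intro i
    fin_cases i
    exacts [n0, n1, n2, n3]
  by_cases hij : i = j
  · subst hij
    rw [if_pos rfl, hss, hn]
  · rw [if_neg hij]
    have := hd i j hij
    rw [hn, hn] at this
    linarith

/-- A vector orthogonal to all the `u i` is zero. -/
lemma eq_zero_of_orth (hl : 0 < l) (hp : ∀ i j, i ≠ j → dist (p i) (p j) = l) (w : E3)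
    (hw : ∀ i, inner ℝ w (u p i) = 0) : w = 0 := by
  have hli : LinearIndependent ℝ (fun i : Fin 3 => u p (Fin.castSucc i)) := by
    rw [Fintype.linearIndependent_iff]
    intro g hg
    have key : ∀ k : Fin 4, ∑ i : Fin 3, g i * inner ℝ (u p k) (u p (Fin.castSucc i)) = 0 := by
      intro k
      have := congrArg (fun x => inner ℝ (u p k) x) hg
      simpa [inner_sum, inner_smul_right] using this
    have k0 := key 0
    have k1 := key 1
    have k2 := key 2
    simp only [Fin.sum_univ_three, inner_u hp] at k0 k1 k2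
    have e0 : (Fin.castSucc (0 : Fin 3)) = (0 : Fin 4) := rfl
    have e1 : (Fin.castSucc (1 : Fin 3)) = (1 : Fin 4) := rfl
    have e2 : (Fin.castSucc (2 : Fin 3)) = (2 : Fin 4) := rfl
    simp (decide := true) only [e0, e1, e2, if_true, if_false] at k0 k1 k2
    have hl2 : 0 < l ^ 2 / 8 := by positivity
    have f0 : 3 * g 0 - g 1 - g 2 = 0 := by
      have : (l ^ 2 / 8) * (3 * g 0 - g 1 - g 2) = 0 := by linarith
      exact (mul_eq_zero.1 this).resolve_left hl2.ne'
    have f1 : 3 * g 1 - g 0 - g 2 = 0 := by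
      have : (l ^ 2 / 8) * (3 * g 1 - g 0 - g 2) = 0 := by linarith
      exact (mul_eq_zero.1 this).resolve_left hl2.ne'
    have f2 : 3 * g 2 - g 0 - g 1 = 0 := by
      have : (l ^ 2 / 8) * (3 * g 2 - g 0 - g 1) = 0 := by linarith
      exact (mul_eq_zero.1 this).resolve_left hl2.ne'
    intro i
    fin_cases i
    · change g 0 = 0
      linarith
    · change g 1 = 0
      linarith
    · change g 2 = 0
      linarith
  have hspan := hli.span_eq_top_of_card_eq_finrank' (by simp)
  have hmem : w ∈ Submodule.span ℝ (Set.range fun i : Fin 3 => u p (Fin.castSucc i)) := by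
    rw [hspan]; trivial
  have hle : Submodule.span ℝ (Set.range fun i : Fin 3 => u p (Fin.castSucc i)) ≤
      LinearMap.ker (innerₛₗ ℝ w) := by
    rw [Submodule.span_le]
    rintro _ ⟨i, rfl⟩
    simp [hw]
  have := hle hmem
  rw [LinearMap.mem_ker, innerₛₗ_apply_apply] at this
  exact inner_self_eq_zero.1 this

lemma mem_face (p : Fin 4 → E3) {i j : Fin 4} (h : j ≠ i) : p j ∈ face p i :=
  subset_convexHull ℝ _ ⟨j, h, rfl⟩

lemma card3 : ∀ i : Fin 4, (Finset.univ.filter fun k : Fin 4 => ¬ k = i).card = 3 := by decide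

/-- The reflection formula. -/
lemma reflect_eq (hl : 0 < l) (hp : ∀ i j, i ≠ j → dist (p i) (p j) = l) (i : Fin 4) (n v : E3)
    (hn : ‖n‖ = 1) (ho : ∀ x ∈ face p i, ∀ y ∈ face p i, inner ℝ n (x - y) = 0) :
    v - (2 * inner ℝ v n) • n = v - (2 / (3 * (l ^ 2 / 8)) * inner ℝ v (u p i)) • u p i := by
  have hl2 : 0 < l ^ 2 / 8 := by positivity
  set a : ℝ := l ^ 2 / 8 with ha
  set c : ℝ := inner ℝ n (u p i) / (3 * a) with hc
  have hw0 : n - c • u p i = 0 := by
    apply eq_zero_of_orth hl hp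
    have h1 : inner ℝ (n - c • u p i) (u p i) = 0 := by
      rw [inner_sub_left, inner_smul_left, inner_u hp, if_pos rfl, ← ha, hc]
      simp only [conj_trivial]
      field_simp
      ring
    have h2 : ∀ j k, j ≠ i → k ≠ i →
        inner ℝ (n - c • u p i) (u p j) = inner ℝ (n - c • u p i) (u p k) := by
      intro j k hj hk
      have h3 := ho (p j) (mem_face p hj) (p k) (mem_face p hk)
      rw [← u_sub, inner_sub_right] at h3
      rw [inner_sub_left, inner_sub_left, inner_smul_left, inner_smul_left, inner_u hp,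
        inner_u hp, if_neg hj.symm, if_neg hk.symm]
      linarith
    have h3 : ∑ j, inner ℝ (n - c • u p i) (u p j) = 0 := by
      rw [← inner_sum, sum_u, inner_zero_right]
    intro j
    by_cases hj : j = i
    · rw [hj]; exact h1
    · have h4 : ∀ k, inner ℝ (n - c • u p i) (u p k) =
          if k = i then 0 else inner ℝ (n - c • u p i) (u p j) := by
        intro k
        split_ifs with hk
        · rw [hk]; exact h1
        · exact h2 k j hk hj
      rw [Finset.sum_congr rfl fun k _ => h4 k] at h3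
      rw [Finset.sum_ite, Finset.sum_const_zero, zero_add, Finset.sum_const] at h3
      rw [card3] at h3
      have h6 : (3 : ℝ) * inner ℝ (n - c • u p i) (u p j) = 0 := by
        rw [← h3, nsmul_eq_mul]; norm_num
      linarith
  have hnc : n = c • u p i := sub_eq_zero.1 hw0
  have hc2 : c ^ 2 * (3 * a) = 1 := by
    have h1 : inner ℝ n n = (1 : ℝ) := by rw [real_inner_self_eq_norm_sq, hn]; norm_num
    rw [hnc, inner_smul_left, inner_smul_right, inner_u hp, if_pos rfl, ← ha] at h1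
    simp only [conj_trivial] at h1
    linarith
  rw [hnc, inner_smul_right, smul_smul]
  congr 2
  have : c ^ 2 = 1 / (3 * a) := by field_simp; linarith
  calc 2 * (c * inner ℝ v (u p i)) * c = 2 * c ^ 2 * inner ℝ v (u p i) := by ring
    _ = _ := by rw [this]; ring

/-- The height over the face `i`. -/
noncomputable def ht (p : Fin 4 → E3) (i : Fin 4) (x : E3) : ℝ :=
  inner ℝ (u p i) (x - (1 / 4 : ℝ) • ∑ j, p j)

lemma ht_vertex (hp : ∀ i j, i ≠ j → dist (p i) (p j) = l) (i j : Fin 4) :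
    ht p i (p j) = if i = j then 3 * (l ^ 2 / 8) else - (l ^ 2 / 8) := inner_u hp i j

lemma convexHull_ht {s : Set E3} {i : Fin 4} {c : ℝ} (h : ∀ x ∈ s, c ≤ ht p i x) :
    ∀ x ∈ convexHull ℝ s, c ≤ ht p i x := by
  have hconv : Convex ℝ {x | c ≤ ht p i x} := by
    intro x hx y hy a b ha hb hab
    simp only [Set.mem_ofPred_eq, ht] at hx hy ⊢
    have e : a • x + b • y - (1 / 4 : ℝ) • ∑ j, p j =
        a • (x - (1 / 4 : ℝ) • ∑ j, p j) + b • (y - (1 / 4 : ℝ) • ∑ j, p j) := by
      have hb' : b = 1 - a := by linarith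
      subst hb'
      module
    rw [e, inner_add_right, inner_smul_right, inner_smul_right]
    have h1 := mul_le_mul_of_nonneg_left hx ha
    have h2 := mul_le_mul_of_nonneg_left hy hb
    have h3 : c = a * c + b * c := by rw [← add_mul, hab, one_mul]
    linarith
  exact fun x hx => convexHull_min (fun y hy => h y hy) hconv hx

lemma convexHull_ht' {s : Set E3} {i : Fin 4} {c : ℝ} (h : ∀ x ∈ s, ht p i x ≤ c) :
    ∀ x ∈ convexHull ℝ s, ht p i x ≤ c := by
  have hconv : Convex ℝ {x | ht p i x ≤ c} := by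
    intro x hx y hy a b ha hb hab
    simp only [Set.mem_ofPred_eq, ht] at hx hy ⊢
    have e : a • x + b • y - (1 / 4 : ℝ) • ∑ j, p j =
        a • (x - (1 / 4 : ℝ) • ∑ j, p j) + b • (y - (1 / 4 : ℝ) • ∑ j, p j) := by
      have hb' : b = 1 - a := by linarith
      subst hb'
      module
    rw [e, inner_add_right, inner_smul_right, inner_smul_right]
    have h1 := mul_le_mul_of_nonneg_left hx ha
    have h2 := mul_le_mul_of_nonneg_left hy hb
    have h3 : c = a * c + b * c := by rw [← add_mul, hab, one_mul]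
    linarith
  exact fun x hx => convexHull_min (fun y hy => h y hy) hconv hx

lemma ht_face (hp : ∀ i j, i ≠ j → dist (p i) (p j) = l) {i : Fin 4} {x : E3}
    (hx : x ∈ face p i) : ht p i x = - (l ^ 2 / 8) := by
  have h : ∀ y ∈ p '' {j | j ≠ i}, ht p i y = - (l ^ 2 / 8) := by
    rintro _ ⟨j, hj, rfl⟩
    rw [ht_vertex hp, if_neg (fun h => hj h.symm)]
  exact le_antisymm (convexHull_ht' (fun y hy => (h y hy).le) x hx)
    (convexHull_ht (fun y hy => (h y hy).ge) x hx)

lemma ht_ge (hp : ∀ i j, i ≠ j → dist (p i) (p j) = l) (i : Fin 4) {x : E3}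
    (hx : x ∈ convexHull ℝ (Set.range p)) : - (l ^ 2 / 8) ≤ ht p i x := by
  refine convexHull_ht ?_ x hx
  rintro _ ⟨j, rfl⟩
  rw [ht_vertex hp]
  have : 0 ≤ l ^ 2 / 8 := by positivity
  split_ifs <;> linarith

lemma ht_interior (hl : 0 < l) (hp : ∀ i j, i ≠ j → dist (p i) (p j) = l) (i : Fin 4) {x : E3}
    (hx : x ∈ interior (convexHull ℝ (Set.range p))) : - (l ^ 2 / 8) < ht p i x := by
  have hl2 : 0 < l ^ 2 / 8 := by positivity
  have hc : Filter.Tendsto (fun t : ℝ => x - t • u p i) (nhdsWithin 0 (Set.Ioi 0)) (nhds x) := by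
    have : Continuous fun t : ℝ => x - t • u p i := by fun_prop
    have h := (this.tendsto 0).mono_left (nhdsWithin_le_nhds (s := Set.Ioi (0:ℝ)))
    simpa using h
  have he := hc.eventually (mem_interior_iff_mem_nhds.1 hx)
  obtain ⟨t, ht1, ht2⟩ := (he.and self_mem_nhdsWithin).exists
  have h1 := ht_ge hp i ht1
  have h2 : ht p i (x - t • u p i) = ht p i x - t * (3 * (l ^ 2 / 8)) := by
    simp only [ht]
    have e : x - t • u p i - (1 / 4 : ℝ) • ∑ j, p j =
      (x - (1 / 4 : ℝ) • ∑ j, p j) - t • u p i := by abel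
    rw [e, inner_sub_right, inner_smul_right, inner_u hp, if_pos rfl]
  have h3 : 0 < t := ht2
  nlinarith [mul_pos h3 hl2]

end geom

/-! ### The main argument -/

section main

variable {p : Fin 4 → E3} {l : ℝ} {q v : ℕ → E3} {f : ℕ → Fin 4}

/-- The ball moves towards the face it meets next. -/
lemma towards (hl : 0 < l) (hp : ∀ i j, i ≠ j → dist (p i) (p j) = l)
    (h : IsTrajectory p q v f) (k : ℕ) : inner ℝ (v k) (u p (f (k + 1))) < 0 := by
  obtain ⟨t, ht0, hq⟩ := h.move k
  set i := f (k + 1) with hi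
  have h1 : ht p i (q (k + 1)) = - (l ^ 2 / 8) :=
    ht_face hp (intrinsicInterior_subset (h.bounce k))
  have hmid : (1 / 2 : ℝ) • q k + (1 / 2 : ℝ) • q (k + 1) ∈ openSegment ℝ (q k) (q (k + 1)) :=
    ⟨1 / 2, 1 / 2, by norm_num, by norm_num, by norm_num, rfl⟩
  have h2 := ht_interior hl hp i (h.inside k hmid)
  have h3 : q (k + 1) - ((1 / 2 : ℝ) • q k + (1 / 2 : ℝ) • q (k + 1)) = (t / 2) • v k := by
    rw [hq]; module
  have h4 : ht p i (q (k + 1)) - ht p i ((1 / 2 : ℝ) • q k + (1 / 2 : ℝ) • q (k + 1)) =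
      (t / 2) * inner ℝ (v k) (u p i) := by
    simp only [ht]
    rw [← inner_sub_right, sub_sub_sub_cancel_right, h3, inner_smul_right, real_inner_comm]
  have h5 : (t / 2) * inner ℝ (v k) (u p i) < 0 := by linarith
  by_contra hcon
  have : 0 ≤ (t / 2) * inner ℝ (v k) (u p i) := mul_nonneg (by positivity) (not_lt.1 hcon)
  linarith

lemma step (hl : 0 < l) (hp : ∀ i j, i ≠ j → dist (p i) (p j) = l)
    (h : IsTrajectory p q v f) (k : ℕ) (i : Fin 4) :
    inner ℝ (v (k + 1)) (u p i) = inner ℝ (v k) (u p i) -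
      2 / 3 * inner ℝ (v k) (u p (f (k + 1))) * (if f (k + 1) = i then 3 else -1) := by
  obtain ⟨n, hn, ho, hv⟩ := h.reflect k
  have hl2 : 0 < l ^ 2 / 8 := by positivity
  rw [hv, reflect_eq hl hp (f (k + 1)) n (v k) hn ho, inner_sub_left, inner_smul_left,
    inner_u hp]
  simp only [conj_trivial]
  split_ifs
  · field_simp
  · field_simp

/-- The coordinates of the velocity. -/
noncomputable def zc (p : Fin 4 → E3) (w : E3) : Fin 3 → ℝ :=
  fun c => ∑ j, (ep j c : ℝ) * inner ℝ w (u p j)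

lemma zc_dot (p : Fin 4 → E3) (w : E3) (i : Fin 4) :
    ∑ c, (ep i c : ℝ) * zc p w c = 4 * inner ℝ w (u p i) := by
  have hs : inner ℝ w (u p 0) + inner ℝ w (u p 1) + inner ℝ w (u p 2) + inner ℝ w (u p 3) = 0 := by
    rw [← Fin.sum_univ_four (fun j => inner ℝ w (u p j)), ← inner_sum, sum_u, inner_zero_right]
  fin_cases i <;>
  · simp only [zc, Fin.sum_univ_three, Fin.sum_univ_four, ep, Matrix.cons_val', Matrix.cons_val_zero,
      Matrix.cons_val_one, Matrix.cons_val_two, Matrix.cons_val_three]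
    simp
    linarith

lemma zc_step (hl : 0 < l) (hp : ∀ i j, i ≠ j → dist (p i) (p j) = l)
    (h : IsTrajectory p q v f) (k : ℕ) :
    ((A (f (k + 1))).map (Int.cast : ℤ → ℝ)).mulVec (zc p (v k)) = (3 : ℝ) • zc p (v (k + 1)) := by
  funext c
  have h1 : ∀ c, zc p (v (k + 1)) c = zc p (v k) c -
      8 / 3 * inner ℝ (v k) (u p (f (k + 1))) * (ep (f (k + 1)) c : ℝ) := by
    intro c
    simp only [zc, step hl hp h k]
    generalize f (k + 1) = i
    rw [Fin.sum_univ_four, Fin.sum_univ_four]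
    fin_cases i <;> fin_cases c <;> simp [ep] <;> ring
  have h2 := zc_dot p (v k) (f (k + 1))
  rw [Pi.smul_apply, smul_eq_mul, h1, Matrix.mulVec, dotProduct]
  have h3 : ∀ c', (A (f (k + 1))).map (Int.cast : ℤ → ℝ) c c' * zc p (v k) c' =
      (if c = c' then 3 * zc p (v k) c' else 0) -
        2 * (ep (f (k + 1)) c : ℝ) * ((ep (f (k + 1)) c' : ℝ) * zc p (v k) c') := by
    intro c'
    simp only [A, Matrix.map_apply, Matrix.sub_apply, Matrix.smul_apply, Matrix.one_apply,
      Matrix.vecMulVec_apply, smul_eq_mul]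
    split_ifs <;> push_cast <;> ring
  rw [Finset.sum_congr rfl fun c' _ => h3 c', Finset.sum_sub_distrib, ← Finset.mul_sum, h2,
    Finset.sum_ite_eq]
  simp
  ring

lemma zc_iter (hl : 0 < l) (hp : ∀ i j, i ≠ j → dist (p i) (p j) = l)
    (h : IsTrajectory p q v f) (n : ℕ) :
    ((Pr f n).map (Int.cast : ℤ → ℝ)).mulVec (zc p (v 0)) = (3 : ℝ) ^ n • zc p (v n) := by
  induction n with
  | zero =>
    have : (Pr f 0).map (Int.cast : ℤ → ℝ) = 1 := by
      ext a b
      simp [Pr, Matrix.one_apply]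
    rw [this]
    simp
  | succ n ih =>
    have h1 : (Pr f (n + 1)).map (Int.cast : ℤ → ℝ) =
        (A (f (n + 1))).map (Int.cast : ℤ → ℝ) * (Pr f n).map (Int.cast : ℤ → ℝ) := by
      have := Matrix.map_mul (L := A (f (n + 1))) (M := Pr f n) (f := Int.castRingHom ℝ)
      exact this
    rw [h1, ← Matrix.mulVec_mulVec, ih, Matrix.mulVec_smul, zc_step hl hp h n, smul_smul,
      pow_succ]

/-- If the velocity after `n ≥ 1` bounces is the initial velocity, then `n` is even. -/
theorem main (hl : 0 < l) (hp : ∀ i j, i ≠ j → dist (p i) (p j) = l)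
    (h : IsTrajectory p q v f) (n : ℕ) (hn : 1 ≤ n) (hv : v n = v 0) : Even n := by
  have hneg := towards hl hp h
  have hpos : ∀ k, 0 < inner ℝ (v (k + 1)) (u p (f (k + 1))) := by
    intro k
    have h1 := step hl hp h k (f (k + 1))
    rw [if_pos rfl] at h1
    have := hneg k
    linarith
  refine core f ?_ n hn ?_ (zc p (v 0)) ?_ ?_
  · intro m hm heq
    obtain ⟨k, rfl⟩ := Nat.exists_eq_add_of_le' hm
    have h1 := hneg (k + 1)
    rw [heq] at h1
    exact absurd h1 (hpos k).not_gt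
  · intro heq
    obtain ⟨k, rfl⟩ := Nat.exists_eq_add_of_le' hn
    have h1 := hpos k
    rw [hv, heq] at h1
    exact absurd (hneg 0) h1.not_gt
  · intro hz
    have h1 := zc_dot p (v 0) (f 1)
    rw [hz] at h1
    simp only [Pi.zero_apply, mul_zero, Finset.sum_const_zero] at h1
    have := hneg 0
    rw [zero_add] at this
    linarith
  · have := zc_iter hl hp h n
    rwa [hv] at this

end main

/-- Every periodic billiard orbit in every regular tetrahedron has an even number of bounces.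
More generally, for every billiard trajectory in a regular tetrahedron whose velocity after
`n ≥ 1` bounces is the initial velocity, `n` is even. -/
theorem result : ∀ (p : Fin 4 → E3) (l : ℝ), 0 < l → (∀ i j, i ≠ j → dist (p i) (p j) = l) →
    ∀ (q v : ℕ → E3) (f : ℕ → Fin 4), IsTrajectory p q v f →
      (∀ n, HasBounces q v n → Even n) ∧ (∀ n, 1 ≤ n → v n = v 0 → Even n) := by
  intro p l hl hp q v f h
  exact ⟨fun n hn => main hl hp h n hn.1 hn.2.1.2, fun n hn hv => main hl hp h n hn hv⟩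

end Pool.Agent.Results.MP_aceab8_an.EvenBounces
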